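import Pool.Agent.Q252.UB.Strip

set_option autoImplicit false
set_option linter.unusedSectionVars false

/-! Unit bars: counting the visibilities of a strip, and the main inequality. -/

namespace Pool.Agent.Q252.UB

open Finset Topology Filter

section

variable {ι : Type*} {l h : ι → ℝ} (g : Good l h) [Fintype ι] (Y : ι → Prop)

/-- the colours of the positions -/
def colr (p i : ℕ) : Bool := if i ≤ 2 * p then decide (i % 2 = 1) else decide (i % 2 = 0)

include g in
lemma col_pos {k : ℤ} {b : ι} (hb : idx l b = k ∨ idx l b = k + 1) :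
    colr (tot l Y k) (pos l h Y k b) = true ↔ Y b := by
  rcases hb with hb | hb
  · have h1 := pos_left_le g Y hb
    rw [colr, if_pos h1, decide_eq_true_iff, pos_left Y hb]
    split_ifs with hY
    · simp only [hY, iff_true]; omega
    · simp only [hY, iff_false]; omega
  · have h1 := lt_pos_right g Y hb
    rw [colr, if_neg (by omega), decide_eq_true_iff, pos_right Y hb]
    split_ifs with hY
    · simp only [hY, iff_true]; omega
    · simp only [hY, iff_false]; omega

/-- chords of the strip -/
def IsChord (l h : ι → ℝ) (Y : ι → Prop) (k : ℤ) (e : ℕ × ℕ) : Prop :=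
  e.1 + 2 ≤ e.2 ∧ ∃ (a b : ι) (x : ℝ), (k : ℝ) < x ∧ x < k + 1 ∧ See l h x a b ∧
    pos l h Y k a = e.1 ∧ pos l h Y k b = e.2 ∧ ¬ (Y a ↔ Y b)

open Classical in
/-- the set of the chords of the strip -/
noncomputable def chords (l h : ι → ℝ) (Y : ι → Prop) (k : ℤ) : Finset (ℕ × ℕ) :=
  (range (2 * tot l Y k + 2 * tot l Y (k + 1) + 2) ×ˢ
    range (2 * tot l Y k + 2 * tot l Y (k + 1) + 2)).filter (IsChord l h Y k)

include g in
lemma mem_chords {k : ℤ} {e : ℕ × ℕ} : e ∈ chords l h Y k ↔ IsChord l h Y k e := by
  classical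
  rw [chords, Finset.mem_filter, and_iff_right_iff_imp]
  rintro ⟨h0, a, b, x, h1, h2, s, h3, h4, -⟩
  have hle : ∀ b, (idx l b = k ∨ idx l b = k + 1) →
      pos l h Y k b ≤ 2 * tot l Y k + 2 * tot l Y (k + 1) + 1 := by
    intro b hb
    rcases hb with hb | hb
    · have := pos_left_le g Y hb; omega
    · exact pos_right_le g Y hb
  have ha := hle a (idx_of_over g h1 h2 s.1)
  have hb := hle b (idx_of_over g h1 h2 s.2.1)
  rw [Finset.mem_product, Finset.mem_range, Finset.mem_range]
  constructor <;> omega

lemma st_colr (p q : ℕ) : st (colr p) 0 (2 * p + 2 * q + 1) = 2 * p + 2 * q := by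
  rw [st_add (b := 2 * p) (by omega) (by omega), st_add (i := 2 * p) (b := 2 * p + 1) (by omega)
    (by omega), st_one]
  have h1 : st (colr p) 0 (2 * p) = 2 * p := by
    rw [st, Finset.sum_congr rfl (g := fun _ => (1 : ℤ))]
    · simp
    · intro i hi
      rw [Finset.mem_Ico] at hi
      rw [if_neg]
      rw [colr, colr, if_pos (by omega), if_pos (by omega)]
      rcases Nat.mod_two_eq_zero_or_one i with h | h
      · have : (i + 1) % 2 = 1 := by omega
        simp [h, this]
      · have : (i + 1) % 2 = 0 := by omega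
        simp [h, this]
  have h2 : st (colr p) (2 * p + 1) (2 * p + 2 * q + 1) = 2 * q := by
    rw [st, Finset.sum_congr rfl (g := fun _ => (1 : ℤ))]
    · simp
    · intro i hi
      rw [Finset.mem_Ico] at hi
      rw [if_neg]
      rw [colr, colr, if_neg (by omega), if_neg (by omega)]
      rcases Nat.mod_two_eq_zero_or_one i with h | h
      · have : (i + 1) % 2 = 1 := by omega
        simp [h, this]
      · have : (i + 1) % 2 = 0 := by omega
        simp [h, this]
  have h3 : colr p (2 * p) = colr p (2 * p + 1) := by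
    rw [colr, colr, if_pos (by omega), if_neg (by omega)]
    have h4 : (2 * p) % 2 = 0 := by omega
    have h5 : (2 * p + 1) % 2 = 1 := by omega
    simp [h4, h5]
  rw [h1, h2, if_pos h3]
  ring

include g in
theorem card_chords (k : ℤ) : (chords l h Y k).card ≤ tot l Y k + tot l Y (k + 1) := by
  classical
  set p := tot l Y k with hp
  set q := tot l Y (k + 1) with hq
  have hb := nc_bound (F := chords l h Y k) (col := colr p)
    (fun e he => ((mem_chords g Y).mp he).1)
    (fun e he => by
      obtain ⟨-, a, b, x, h1, h2, s, h3, h4, h5⟩ := (mem_chords g Y).mp he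
      intro heq
      apply h5
      rw [← col_pos g Y (idx_of_over g h1 h2 s.1), ← col_pos g Y (idx_of_over g h1 h2 s.2.1), h3, h4,
        ← hp, heq])
    (fun e he f hf hc => by
      obtain ⟨-, a, b, x, h1, h2, s, h3, h4, h5⟩ := (mem_chords g Y).mp he
      obtain ⟨-, a', b', x', h1', h2', s', h3', h4', h5'⟩ := (mem_chords g Y).mp hf
      exact no_cross g Y h1 h2 h1' h2' s s' (by omega) (by omega) (by omega))
    (2 * p + 2 * q + 1) 0 (by omega)
  have hcnt : cnt (chords l h Y k) 0 (0 + (2 * p + 2 * q + 1)) = (chords l h Y k).card := by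
    rw [cnt]
    congr 1
    rw [Finset.filter_eq_self]
    intro e he
    refine ⟨Nat.zero_le _, ?_⟩
    rw [chords, Finset.mem_filter, Finset.mem_product, Finset.mem_range, Finset.mem_range] at he
    omega
  rw [hcnt, bd, Nat.zero_add, st_colr] at hb
  have hcol : colr p 0 = colr p (2 * p + 2 * q + 1) := by
    rw [colr, colr, if_pos (by omega), if_neg (by omega)]
    have h5 : (2 * p + 2 * q + 1) % 2 = 1 := by omega
    simp [h5]
  rw [if_pos hcol] at hb
  push_cast at hb
  omega

/-- nothing of `Y` met at the same integer between the two bars -/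
def NoBtw (l h : ι → ℝ) (Y : ι → Prop) (a b : ι) : Prop :=
  idx l a = idx l b ∧ ∀ y, Y y → idx l y = idx l a →
    ¬ (h a < h y ∧ h y < h b) ∧ ¬ (h b < h y ∧ h y < h a)

include g in
/-- adjacent positions -/
lemma noBtw_of_pos {k : ℤ} {a c : ι} (ha : idx l a = k ∨ idx l a = k + 1)
    (hc : idx l c = k ∨ idx l c = k + 1) (_hYa : ¬ Y a) (hYc : Y c)
    (h1 : pos l h Y k a ≤ pos l h Y k c + 1) (h2 : pos l h Y k c ≤ pos l h Y k a + 1) :
    NoBtw l h Y a c := by
  have hac : idx l a = idx l c := by
    rcases ha with ha | ha <;> rcases hc with hc | hc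
    · rw [ha, hc]
    · exfalso
      have h3 := pos_left_le g Y ha
      have h4 := pos_right (h := h) Y hc
      rw [if_pos hYc] at h4
      omega
    · exfalso
      have h3 := pos_left (h := h) Y hc
      rw [if_pos hYc] at h3
      have h4 := lt_pos_right g Y ha
      have h5 := up_lt g Y hYc hc
      omega
    · rw [ha, hc]
  refine ⟨hac, fun y hy hiy => ?_⟩
  rcases ha with ha | ha
  · have hc' := hac ▸ ha
    have hy' := hiy.trans ha
    constructor
    · rintro ⟨h3, h4⟩
      have h5 := pos_left_anti' g Y ha hy' h3 (Or.inr hy)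
      have h6 := pos_left_anti' g Y hy' hc' h4 (Or.inr hYc)
      omega
    · rintro ⟨h3, h4⟩
      have h5 := pos_left_anti' g Y hc' hy' h3 (Or.inr hy)
      have h6 := pos_left_anti' g Y hy' ha h4 (Or.inl hy)
      omega
  · have hc' := hac ▸ ha
    have hy' := hiy.trans ha
    constructor
    · rintro ⟨h3, h4⟩
      have h5 := pos_right_mono' g Y ha hy' h3 (Or.inr hy)
      have h6 := pos_right_mono' g Y hy' hc' h4 (Or.inr hYc)
      omega
    · rintro ⟨h3, h4⟩
      have h5 := pos_right_mono' g Y hc' hy' h3 (Or.inr hy)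
      have h6 := pos_right_mono' g Y hy' ha h4 (Or.inl hy)
      omega

include g in
/-- equal positions -/
lemma noBtw_of_eq {k : ℤ} {a b : ι} (ha : idx l a = k ∨ idx l a = k + 1)
    (hb : idx l b = k ∨ idx l b = k + 1) (he : pos l h Y k a = pos l h Y k b) :
    NoBtw l h Y a b := by
  have hab : idx l a = idx l b := by
    rcases ha with ha | ha <;> rcases hb with hb | hb
    · rw [ha, hb]
    · exfalso
      have h3 := pos_left_le g Y ha
      have h4 := lt_pos_right g Y hb
      omega
    · exfalso
      have h3 := pos_left_le g Y hb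
      have h4 := lt_pos_right g Y ha
      omega
    · rw [ha, hb]
  refine ⟨hab, fun y hy hiy => ?_⟩
  rcases ha with ha | ha
  · have hc' := hab ▸ ha
    have hy' := hiy.trans ha
    constructor
    · rintro ⟨h3, h4⟩
      have h5 := pos_left_anti' g Y ha hy' h3 (Or.inr hy)
      have h6 := pos_left_anti' g Y hy' hc' h4 (Or.inl hy)
      omega
    · rintro ⟨h3, h4⟩
      have h5 := pos_left_anti' g Y hc' hy' h3 (Or.inr hy)
      have h6 := pos_left_anti' g Y hy' ha h4 (Or.inl hy)
      omega
  · have hc' := hab ▸ ha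
    have hy' := hiy.trans ha
    constructor
    · rintro ⟨h3, h4⟩
      have h5 := pos_right_mono' g Y ha hy' h3 (Or.inr hy)
      have h6 := pos_right_mono' g Y hy' hc' h4 (Or.inl hy)
      omega
    · rintro ⟨h3, h4⟩
      have h5 := pos_right_mono' g Y hc' hy' h3 (Or.inr hy)
      have h6 := pos_right_mono' g Y hy' ha h4 (Or.inl hy)
      omega

include g in
lemma eq_of_pos {k : ℤ} {a b : ι} (ha : idx l a = k ∨ idx l a = k + 1)
    (hb : idx l b = k ∨ idx l b = k + 1) (he : pos l h Y k a = pos l h Y k b) (hYa : Y a) :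
    a = b := by
  have hab := (noBtw_of_eq g Y ha hb he).1
  refine g.inj hab ?_
  rcases ha with ha | ha
  · have hb' := hab ▸ ha
    rcases lt_trichotomy (h a) (h b) with h1 | h1 | h1
    · have := pos_left_anti' g Y ha hb' h1 (Or.inl hYa); omega
    · exact h1
    · have := pos_left_anti' g Y hb' ha h1 (Or.inr hYa); omega
  · have hb' := hab ▸ ha
    rcases lt_trichotomy (h a) (h b) with h1 | h1 | h1
    · have := pos_right_mono' g Y ha hb' h1 (Or.inl hYa); omega
    · exact h1
    · have := pos_right_mono' g Y hb' ha h1 (Or.inr hYa); omega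

include g in
/-- two bars, not of `Y`, with nothing of `Y` in between, belong to the same vertex -/
theorem label {V : Type*} (own : ι → V) (hY : ∀ a b, own a = own b → (Y a ↔ Y b))
    (hX : ∀ a b, ¬ Y a → ¬ Y b → Sees l h a b → own a = own b) {a b : ι} (ha : ¬ Y a) (hb : ¬ Y b)
    (hn : NoBtw l h Y a b) : own a = own b := by
  classical
  -- we may assume that `a` is lower
  wlog hab : h a < h b generalizing a b
  · rcases (not_lt.mp hab).eq_or_lt with h1 | h1
    · rw [g.inj hn.1 h1.symm]
    · exact (this hb ha ⟨hn.1.symm, fun y hy hi => ((hn.2 y hy (hi.trans hn.1.symm))).symm⟩ h1).symm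
  by_contra hne
  set k := idx l a with hk
  obtain ⟨c, hcT, hcmax⟩ := Finset.exists_max_image
    (univ.filter fun c => idx l c = k ∧ h a ≤ h c ∧ h c < h b ∧ own c = own a) h
    ⟨a, by simp [hab, hk]⟩
  obtain ⟨d, hdU, hdmin⟩ := Finset.exists_min_image
    (univ.filter fun d => idx l d = k ∧ h c < h d ∧ h d ≤ h b) h
    ⟨b, by
      rw [Finset.mem_filter] at hcT ⊢
      exact ⟨Finset.mem_univ _, hn.1.symm, hcT.2.2.2.1, le_rfl⟩⟩
  rw [Finset.mem_filter] at hcT hdU
  obtain ⟨-, ic, hac, hcb, hoc⟩ := hcT
  obtain ⟨-, id, hcd, hdb⟩ := hdU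
  -- a channel
  have hev : ∀ᶠ x : ℝ in 𝓝[>] (k : ℝ), x < k + 1 ∧ ∀ e, (idx l e = k → x < l e + 1) ∧
      (idx l e = k + 1 → x < l e) := by
    refine Filter.Eventually.and ?_ (Filter.eventually_all.mpr fun e => ?_)
    · exact eventually_nhdsWithin_of_eventually_nhds (eventually_lt_nhds (by linarith))
    · refine Filter.Eventually.and ?_ ?_
      · by_cases he : idx l e = k
        · have := idx_lt g e
          rw [he] at this
          filter_upwards [eventually_nhdsWithin_of_eventually_nhds (eventually_lt_nhds this)]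
            with x hx _
          exact hx
        · exact Filter.Eventually.of_forall fun x hx => absurd hx he
      · by_cases he : idx l e = k + 1
        · have h1 : (k : ℝ) < l e := by
            have := idx_lt g e
            rw [he] at this
            push_cast at this
            linarith
          filter_upwards [eventually_nhdsWithin_of_eventually_nhds (eventually_lt_nhds h1)]
            with x hx _
          exact hx
        · exact Filter.Eventually.of_forall fun x hx => absurd hx he
  obtain ⟨β, hβ, hsub⟩ := mem_nhdsGT_iff_exists_Ioo_subset.mp hev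
  have hsees : Sees l h c d := by
    refine ⟨k, β, hβ, fun x hx1 hx2 => ?_⟩
    obtain ⟨h1, h2⟩ := hsub ⟨hx1, hx2⟩
    refine ⟨over_left g ic hx1 ((h2 c).1 ic).le, over_left g id hx1 ((h2 d).1 id).le, ?_⟩
    rintro e hec hed hoe ⟨h3, h4⟩
    rw [min_eq_left hcd.le] at h3
    rw [max_eq_right hcd.le] at h4
    rcases idx_of_over g hx1 h1 hoe with h5 | h5
    · have := hdmin e (by
        rw [Finset.mem_filter]
        exact ⟨Finset.mem_univ _, h5, h3, h4.le.trans hdb⟩)
      linarith
    · have := (h2 e).2 h5
      linarith [hoe.1]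
  have hYc : ¬ Y c := fun hy => ha ((hY c a hoc).mp hy)
  have hYd : ¬ Y d := by
    intro hy
    have h1 := (hn.2 d hy id).1
    rcases hdb.eq_or_lt with h2 | h2
    · have : d = b := g.inj (id.trans hn.1) h2
      exact hb (this ▸ hy)
    · exact h1 ⟨hac.trans_lt hcd, h2⟩
  have h1 := hX c d hYc hYd hsees
  rcases hdb.eq_or_lt with h2 | h2
  · have : d = b := g.inj (id.trans hn.1) h2
    exact hne (by rw [← hoc, h1, this])
  · have := hcmax d (by
      rw [Finset.mem_filter]
      exact ⟨Finset.mem_univ _, id, (hac.trans_lt hcd).le, h2, h1.symm.trans hoc⟩)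
    linarith

end

end Pool.Agent.Q252.UB
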