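import Pool.Agent.Q252.UB.Count

set_option autoImplicit false
set_option linter.unusedSectionVars false

/-! Unit bar visibility representations of complete bipartite graphs. -/

namespace Pool.Agent.Q252.UB

open Finset Topology Filter

section

variable {ι : Type*} {l h : ι → ℝ} [Fintype ι]

open Classical in
lemma sum_fib (Y : ι → Prop) (f : ι → ℤ) (K : Finset ℤ) :
    ∑ k ∈ K, (univ.filter fun c => Y c ∧ f c = k).card ≤ (univ.filter Y).card := by
  rw [← Finset.card_biUnion]
  · refine Finset.card_le_card fun c hc => ?_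
    rw [Finset.mem_biUnion] at hc
    obtain ⟨k, -, hc⟩ := hc
    rw [Finset.mem_filter] at hc ⊢
    exact ⟨hc.1, hc.2.1⟩
  · intro k _ k' _ hne
    rw [Function.onFun, Finset.disjoint_left]
    intro c hc hc'
    rw [Finset.mem_filter] at hc hc'
    exact hne (hc.2.2.symm.trans hc'.2.2)

open Classical in
lemma sum_tot (Y : ι → Prop) (K : Finset ℤ) : ∑ k ∈ K, tot l Y k ≤ (univ.filter Y).card := by
  simp only [tot]
  exact sum_fib Y (idx l) K

open Classical in
lemma sum_tot' (Y : ι → Prop) (K : Finset ℤ) :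
    ∑ k ∈ K, tot l Y (k + 1) ≤ (univ.filter Y).card := by
  refine le_trans (Finset.sum_le_sum fun k _ => ?_) (sum_fib Y (fun c => idx l c - 1) K)
  rw [tot]
  refine Finset.card_le_card fun c hc => ?_
  rw [Finset.mem_filter] at hc ⊢
  exact ⟨hc.1, hc.2.1, by omega⟩

/-- the slots -/
def Rel {m n : ℕ} (l h : ι → ℝ) (own : ι → Fin m ⊕ Fin n) (π : Fin m × Fin n) :
    (ι × Bool) ⊕ (ℤ × (ℕ × ℕ)) → Prop
  | Sum.inl (c, b) => own c = Sum.inr π.2 ∧ ∃ a, own a = Sum.inl π.1 ∧
      NoBtw l h (fun c => (own c).isRight = true) a c ∧ (b = true ↔ h c < h a)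
  | Sum.inr (k, e) => ∃ a c, own a = Sum.inl π.1 ∧ own c = Sum.inr π.2 ∧
      (idx l a = k ∨ idx l a = k + 1) ∧ (idx l c = k ∨ idx l c = k + 1) ∧
      ((pos l h (fun c => (own c).isRight = true) k a = e.1 ∧
        pos l h (fun c => (own c).isRight = true) k c = e.2) ∨
       (pos l h (fun c => (own c).isRight = true) k c = e.1 ∧
        pos l h (fun c => (own c).isRight = true) k a = e.2)) ∧
      IsChord l h (fun c => (own c).isRight = true) k e

open Classical in
theorem core {m n : ℕ} (g : Good l h) (own : ι → Fin m ⊕ Fin n)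
    (hX : ∀ a b i i', own a = Sum.inl i → own b = Sum.inl i' → Sees l h a b → i = i')
    (hXY : ∀ i j, ∃ a c, own a = Sum.inl i ∧ own c = Sum.inr j ∧ Sees l h a c) :
    m * n ≤ 4 * (univ.filter fun c => (own c).isRight = true).card := by
  set Y : ι → Prop := fun c => (own c).isRight = true with hYdef
  have hYown : ∀ a b, own a = own b → (Y a ↔ Y b) := fun a b hab => by
    simp only [hYdef, hab]
  have hXs : ∀ a b, ¬ Y a → ¬ Y b → Sees l h a b → own a = own b := by
    intro a b ha hb hs
    rcases hoa : own a with i | j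
    · rcases hob : own b with i' | j'
      · rw [hX a b i i' hoa hob hs]
      · exact absurd (by simp only [hYdef, hob]; rfl) hb
    · exact absurd (by simp only [hYdef, hoa]; rfl) ha
  have hYinl : ∀ {a i}, own a = Sum.inl i → ¬ Y a := fun {a i} ha => by
    simp only [hYdef, ha]; simp
  have hYinr : ∀ {a j}, own a = Sum.inr j → Y a := fun {a j} ha => by
    simp only [hYdef, ha]; rfl
  have hlab : ∀ {a b i i'}, own a = Sum.inl i → own b = Sum.inl i' → NoBtw l h Y a b → i = i' := by
    intro a b i i' ha hb hn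
    have := label g Y own hYown hXs (hYinl ha) (hYinl hb) hn
    rw [ha, hb] at this
    exact Sum.inl_injective this
  -- the slots determine the pairs
  have hfun : ∀ π π' s, Rel l h own π s → Rel l h own π' s → π = π' := by
    rintro ⟨i, j⟩ ⟨i', j'⟩ (⟨c, b⟩ | ⟨k, e⟩)
    · rintro ⟨h1, a, h2, h3, h4⟩ ⟨h1', a', h2', h3', h4'⟩
      rw [h1] at h1'
      have hj : j = j' := Sum.inr_injective h1'
      have hn : NoBtw l h Y a a' := by
        have hac : h a ≠ h c := fun h5 => hYinl h2 (by rw [g.inj h3.1 h5]; exact hYinr h1)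
        have hac' : h a' ≠ h c := fun h5 => hYinl h2' (by rw [g.inj h3'.1 h5]; exact hYinr h1)
        refine ⟨h3.1.trans h3'.1.symm, fun y hy hi => ?_⟩
        have e1 := h3.2 y hy hi
        have e2 := h3'.2 y hy (hi.trans (h3.1.trans h3'.1.symm))
        rcases b with _ | _
        · have d1 : h a < h c := lt_of_le_of_ne (not_lt.mp fun h5 => by simpa using h4.mpr h5) hac
          have d2 : h a' < h c := lt_of_le_of_ne (not_lt.mp fun h5 => by simpa using h4'.mpr h5) hac'
          exact ⟨fun h5 => e1.1 ⟨h5.1, h5.2.trans d2⟩, fun h5 => e2.1 ⟨h5.1, h5.2.trans d1⟩⟩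
        · have d1 : h c < h a := h4.mp rfl
          have d2 : h c < h a' := h4'.mp rfl
          exact ⟨fun h5 => e2.2 ⟨d1.trans h5.1, h5.2⟩, fun h5 => e1.2 ⟨d2.trans h5.1, h5.2⟩⟩
      exact Prod.ext (hlab h2 h2' hn) hj
    · rintro ⟨a, c, h1, h2, h3, h4, h5, -⟩ ⟨a', c', h1', h2', h3', h4', h5', -⟩
      have ca := col_pos g Y h3
      have cc := col_pos g Y h4
      have ca' := col_pos g Y h3'
      have cc' := col_pos g Y h4'
      have hpp : pos l h Y k a = pos l h Y k a' ∧ pos l h Y k c = pos l h Y k c' := by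
        rcases h5 with h5 | h5 <;> rcases h5' with h5' | h5'
        · exact ⟨h5.1.trans h5'.1.symm, h5.2.trans h5'.2.symm⟩
        · exfalso
          have : pos l h Y k a = pos l h Y k c' := h5.1.trans h5'.1.symm
          rw [this] at ca
          exact hYinl h1 (ca.mp (cc'.mpr (hYinr h2')))
        · exfalso
          have : pos l h Y k c = pos l h Y k a' := h5.1.trans h5'.1.symm
          rw [← this] at ca'
          exact hYinl h1' (ca'.mp (cc.mpr (hYinr h2)))
        · exact ⟨h5.2.trans h5'.2.symm, h5.1.trans h5'.1.symm⟩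
      have hcc := eq_of_pos g Y h4 h4' hpp.2 (hYinr h2)
      rw [← hcc, h2] at h2'
      exact Prod.ext (hlab h1 h1' (noBtw_of_eq g Y h3 h3' hpp.1)) (Sum.inr_injective h2')
  -- the set of the slots
  set YB : Finset ι := univ.filter Y with hYB
  set K : Finset ℤ := YB.image (idx l) ∪ YB.image (fun c => idx l c - 1) with hK
  set S : Finset ((ι × Bool) ⊕ (ℤ × (ℕ × ℕ))) := (YB ×ˢ univ).image Sum.inl ∪
    K.biUnion fun k => (chords l h Y k).image fun e => Sum.inr (k, e) with hS
  have hex : ∀ π : Fin m × Fin n, ∃ s ∈ S, Rel l h own π s := by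
    rintro ⟨i, j⟩
    obtain ⟨a, c, ha, hc, hs⟩ := hXY i j
    obtain ⟨x, hx, hsee⟩ := hs.see
    set k := ⌊x⌋ with hk
    have hx1 : (k : ℝ) < x := lt_of_le_of_ne (Int.floor_le x) (Ne.symm (hx _))
    have hx2 : x < k + 1 := Int.lt_floor_add_one x
    have ia := idx_of_over g hx1 hx2 hsee.1
    have ic := idx_of_over g hx1 hx2 hsee.2.1
    have hYa := hYinl ha
    have hYc := hYinr hc
    have hcYB : c ∈ YB := by rw [hYB, Finset.mem_filter]; exact ⟨Finset.mem_univ _, hYc⟩
    have hkK : k ∈ K := by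
      rw [hK, Finset.mem_union, Finset.mem_image, Finset.mem_image]
      rcases ic with ic | ic
      · exact Or.inl ⟨c, hcYB, ic⟩
      · exact Or.inr ⟨c, hcYB, by omega⟩
    have hne : pos l h Y k a ≠ pos l h Y k c := by
      intro heq
      have e1 := col_pos g Y ia
      have e2 := col_pos g Y ic
      rw [heq] at e1
      exact hYa (e1.mp (e2.mpr hYc))
    rcases lt_or_gt_of_ne hne with hlt | hlt
    · by_cases hd : pos l h Y k a + 2 ≤ pos l h Y k c
      · have hch : IsChord l h Y k (pos l h Y k a, pos l h Y k c) :=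
          ⟨hd, a, c, x, hx1, hx2, hsee, rfl, rfl, fun hiff => hYa (hiff.mpr hYc)⟩
        refine ⟨Sum.inr (k, (pos l h Y k a, pos l h Y k c)), ?_, a, c, ha, hc, ia, ic,
          Or.inl ⟨rfl, rfl⟩, hch⟩
        rw [hS, Finset.mem_union]
        right
        rw [Finset.mem_biUnion]
        exact ⟨k, hkK, Finset.mem_image_of_mem _ ((mem_chords g Y).mpr hch)⟩
      · refine ⟨Sum.inl (c, decide (h c < h a)), ?_, hc, a, ha,
          noBtw_of_pos g Y ia ic hYa hYc (by omega) (by omega), by simp⟩
        rw [hS, Finset.mem_union]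
        left
        exact Finset.mem_image_of_mem _ (Finset.mem_product.mpr ⟨hcYB, Finset.mem_univ _⟩)
    · by_cases hd : pos l h Y k c + 2 ≤ pos l h Y k a
      · have hch : IsChord l h Y k (pos l h Y k c, pos l h Y k a) :=
          ⟨hd, c, a, x, hx1, hx2, hsee.symm, rfl, rfl, fun hiff => hYa (hiff.mp hYc)⟩
        refine ⟨Sum.inr (k, (pos l h Y k c, pos l h Y k a)), ?_, a, c, ha, hc, ia, ic,
          Or.inr ⟨rfl, rfl⟩, hch⟩
        rw [hS, Finset.mem_union]
        right
        rw [Finset.mem_biUnion]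
        exact ⟨k, hkK, Finset.mem_image_of_mem _ ((mem_chords g Y).mpr hch)⟩
      · refine ⟨Sum.inl (c, decide (h c < h a)), ?_, hc, a, ha,
          noBtw_of_pos g Y ia ic hYa hYc (by omega) (by omega), by simp⟩
        rw [hS, Finset.mem_union]
        left
        exact Finset.mem_image_of_mem _ (Finset.mem_product.mpr ⟨hcYB, Finset.mem_univ _⟩)
  choose s hsS hsR using hex
  have hcard : (univ : Finset (Fin m × Fin n)).card ≤ S.card :=
    Finset.card_le_card_of_injOn s (fun π _ => hsS π) (fun π _ π' _ heq =>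
      hfun π π' (s π) (hsR π) (heq ▸ hsR π'))
  have hSc : S.card ≤ YB.card * 2 + (∑ k ∈ K, tot l Y k + ∑ k ∈ K, tot l Y (k + 1)) := by
    rw [hS, ← Finset.sum_add_distrib]
    refine (Finset.card_union_le _ _).trans (add_le_add ?_ ?_)
    · refine Finset.card_image_le.trans ?_
      rw [Finset.card_product]
      simp
    · refine Finset.card_biUnion_le.trans (Finset.sum_le_sum fun k _ => ?_)
      exact Finset.card_image_le.trans (card_chords g Y k)
  have h1 : ∑ k ∈ K, tot l Y k ≤ YB.card := by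
    convert sum_tot Y K
  have h2 : ∑ k ∈ K, tot l Y (k + 1) ≤ YB.card := by
    convert sum_tot' Y K
  rw [Finset.card_univ, Fintype.card_prod, Fintype.card_fin, Fintype.card_fin] at hcard
  omega

end

lemma sees_shift {ι : Type*} {l h : ι → ℝ} (θ : ℝ) {a b : ι} (s : Sees l h a b) :
    Sees (fun c => l c - θ) h a b := by
  obtain ⟨α, β, hlt, hs⟩ := s
  refine ⟨α - θ, β - θ, by linarith, fun x h1 h2 => ?_⟩
  obtain ⟨h3, h4, h5⟩ := hs (x + θ) (by linarith) (by linarith)
  refine ⟨⟨by linarith [h3.1], by linarith [h3.2]⟩, ⟨by linarith [h4.1], by linarith [h4.2]⟩, ?_⟩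
  intro c hca hcb hc
  exact h5 c hca hcb ⟨by linarith [hc.1], by linarith [hc.2]⟩

lemma sees_shift' {ι : Type*} {l h : ι → ℝ} (θ : ℝ) {a b : ι}
    (s : Sees (fun c => l c - θ) h a b) : Sees l h a b := by
  have := sees_shift (-θ) s
  simpa using this

/-- `t`-unit-bar visibility representations -/
def HasRep {V : Type*} (G : SimpleGraph V) (t : ℕ) : Prop :=
  ∃ (ι : Type) (_ : Fintype ι) (l h : ι → ℝ) (own : ι → V),
    (∀ a b, a ≠ b → h a = h b → 1 < |l a - l b|) ∧
    (∀ v, Nat.card {a // own a = v} ≤ t) ∧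
    ∀ u v, u ≠ v → (G.Adj u v ↔ ∃ a b, own a = u ∧ own b = v ∧ Sees l h a b)

/-- the unit bar visibility number -/
noncomputable def ub {V : Type*} (G : SimpleGraph V) : ℕ := sInf {t | HasRep G t}

theorem le_of_hasRep {m n t : ℕ} (hn : 1 ≤ n)
    (hr : HasRep (completeBipartiteGraph (Fin m) (Fin n)) t) : m ≤ 4 * t := by
  classical
  obtain ⟨ι, _, l, h, own, hd, hc, hadj⟩ := hr
  -- a generic shift
  obtain ⟨θ, hθ⟩ : ∃ θ : ℝ, ∀ (a : ι) (k : ℤ), l a - θ ≠ k := by
    have hcount : (Set.range fun p : ι × ℤ => l p.1 - p.2).Countable := Set.countable_range _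
    obtain ⟨θ, hθ⟩ := (hcount.dense_compl ℝ).nonempty
    refine ⟨θ, fun a k hak => hθ ⟨(a, k), ?_⟩⟩
    show l a - k = θ
    linarith
  have g : Good (fun c => l c - θ) h := ⟨fun a b hab hh => by
    have := hd a b hab hh
    rwa [sub_sub_sub_cancel_right], hθ⟩
  have h1 := core g own (fun a b i i' ha hb hs => by
    by_contra hne
    have h2 : own a ≠ own b := by
      rw [ha, hb]
      exact fun h3 => hne (Sum.inl_injective h3)
    have h3 := (hadj _ _ h2).mpr ⟨a, b, rfl, rfl, sees_shift' θ hs⟩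
    rw [ha, hb] at h3
    simp [completeBipartiteGraph] at h3) (fun i j => by
    obtain ⟨a, c, ha, hc', hs⟩ := (hadj (Sum.inl i) (Sum.inr j) (by simp)).mp
      (by simp [completeBipartiteGraph])
    exact ⟨a, c, ha, hc', sees_shift θ hs⟩)
  have h2 : (univ.filter fun c => (own c).isRight = true).card ≤ n * t := by
    have h3 : (univ.filter fun c => (own c).isRight = true) ⊆
        (univ : Finset (Fin n)).biUnion fun j => univ.filter fun c => own c = Sum.inr j := by
      intro c hc
      rw [Finset.mem_filter] at hc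
      obtain ⟨j, hj⟩ := Sum.isRight_iff.mp hc.2
      rw [Finset.mem_biUnion]
      exact ⟨j, Finset.mem_univ _, by rw [Finset.mem_filter]; exact ⟨Finset.mem_univ _, hj⟩⟩
    refine (Finset.card_le_card h3).trans ((Finset.card_biUnion_le_card_mul _ _ t ?_).trans ?_)
    · intro j _
      have := hc (Sum.inr j)
      rwa [Nat.card_eq_fintype_card, Fintype.card_subtype] at this
    · rw [Finset.card_univ, Fintype.card_fin]
  have h4 : m * n ≤ (4 * t) * n := by
    calc m * n ≤ 4 * (univ.filter fun c => (own c).isRight = true).card := h1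
      _ ≤ 4 * (n * t) := Nat.mul_le_mul_left _ h2
      _ = (4 * t) * n := by ring
  exact Nat.le_of_mul_le_mul_right h4 hn

/-- complete bipartite graphs have unit bar visibility representations -/
theorem hasRep_max (m n : ℕ) : HasRep (completeBipartiteGraph (Fin m) (Fin n)) (max m n) := by
  classical
  let N : Fin m × Fin n → ℝ := fun e => ((finProdFinEquiv e : Fin (m * n)) : ℕ)
  have hN : ∀ e f, e ≠ f → 1 ≤ |N e - N f| := by
    intro e f hef
    have h1 : (finProdFinEquiv e : Fin (m * n)).val ≠ (finProdFinEquiv f : Fin (m * n)).val :=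
      fun h => hef (finProdFinEquiv.injective (Fin.ext h))
    show 1 ≤ |(((finProdFinEquiv e : Fin (m * n)) : ℕ) : ℝ) -
      (((finProdFinEquiv f : Fin (m * n)) : ℕ) : ℝ)|
    have h2 : (1 : ℤ) ≤ |(((finProdFinEquiv e : Fin (m * n)) : ℕ) : ℤ) -
      (((finProdFinEquiv f : Fin (m * n)) : ℕ) : ℤ)| := Int.one_le_abs (by omega)
    exact_mod_cast h2
  refine ⟨(Fin m × Fin n) × Bool, inferInstance, fun a => 2 * N a.1, fun a => if a.2 then 1 else 0,
    fun a => if a.2 then Sum.inr a.1.2 else Sum.inl a.1.1, ?_, ?_, ?_⟩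
  · rintro ⟨e, b⟩ ⟨f, c⟩ hne hh
    have hbc : b = c := by
      cases b <;> cases c <;> simp at hh ⊢
    have hef : e ≠ f := fun h => hne (by rw [h, hbc])
    have := hN e f hef
    show 1 < |2 * N e - 2 * N f|
    rw [← mul_sub, abs_mul, abs_two]
    linarith
  · rintro (i | j)
    · refine le_trans ?_ (le_max_right m n)
      refine (Nat.card_le_card_of_injective
        (fun a : {a : (Fin m × Fin n) × Bool // (if a.2 then Sum.inr a.1.2 else Sum.inl a.1.1) =
          (Sum.inl i : Fin m ⊕ Fin n)} => a.1.1.2) ?_).trans (by simp)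
      rintro ⟨⟨⟨x, y⟩, b⟩, ha⟩ ⟨⟨⟨x', y'⟩, b'⟩, ha'⟩ hxy
      cases b <;> cases b' <;> simp at ha ha' hxy ⊢
      exact ⟨ha.trans ha'.symm, hxy⟩
    · refine le_trans ?_ (le_max_left m n)
      refine (Nat.card_le_card_of_injective
        (fun a : {a : (Fin m × Fin n) × Bool // (if a.2 then Sum.inr a.1.2 else Sum.inl a.1.1) =
          (Sum.inr j : Fin m ⊕ Fin n)} => a.1.1.1) ?_).trans (by simp)
      rintro ⟨⟨⟨x, y⟩, b⟩, ha⟩ ⟨⟨⟨x', y'⟩, b'⟩, ha'⟩ hxy
      cases b <;> cases b' <;> simp at ha ha' hxy ⊢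
      exact ⟨hxy, ha.trans ha'.symm⟩
  · have hsees : ∀ (e : Fin m × Fin n) (b c : Bool),
        Sees (fun a : (Fin m × Fin n) × Bool => 2 * N a.1) (fun a => if a.2 then (1 : ℝ) else 0)
          (e, b) (e, c) := by
      intro e b c
      refine ⟨2 * N e, 2 * N e + 1, by linarith, fun x h1 h2 => ⟨⟨h1.le, h2.le⟩, ⟨h1.le, h2.le⟩, ?_⟩⟩
      rintro ⟨f, d⟩ - - ⟨h3, h4⟩ ⟨h5, h6⟩
      cases b <;> cases c <;> cases d <;> simp at h5 h6 <;> linarith
    intro u v huv
    constructor
    · intro hadj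
      rcases u with i | i <;> rcases v with j | j
      · simp [completeBipartiteGraph] at hadj
      · exact ⟨((i, j), false), ((i, j), true), by simp, by simp, hsees _ _ _⟩
      · exact ⟨((j, i), true), ((j, i), false), by simp, by simp, hsees _ _ _⟩
      · simp [completeBipartiteGraph] at hadj
    · rintro ⟨⟨e, b⟩, ⟨f, c⟩, ha, hb, α, β, hlt, hs⟩
      obtain ⟨x, hx1, hx2⟩ := exists_between hlt
      obtain ⟨h1, h2, -⟩ := hs x hx1 hx2
      have hef : e = f := by
        by_contra hne
        have h3 := hN e f hne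
        have h4 : |2 * N e - 2 * N f| ≤ 1 := by
          rw [abs_le]
          have e1 : 2 * N e ≤ x := h1.1
          have e2 : x ≤ 2 * N e + 1 := h1.2
          have e3 : 2 * N f ≤ x := h2.1
          have e4 : x ≤ 2 * N f + 1 := h2.2
          constructor <;> linarith
        rw [← mul_sub, abs_mul, abs_two] at h4
        linarith
      subst hef
      subst ha hb
      cases b <;> cases c <;> simp [completeBipartiteGraph] at huv ⊢

theorem hasRep_ub (m n : ℕ) : HasRep (completeBipartiteGraph (Fin m) (Fin n))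
    (ub (completeBipartiteGraph (Fin m) (Fin n))) :=
  Nat.sInf_mem (s := {t | HasRep (completeBipartiteGraph (Fin m) (Fin n)) t}) ⟨_, hasRep_max m n⟩

end Pool.Agent.Q252.UB
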