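import Mathlib

set_option autoImplicit false

/-! Non-crossing families of bichromatic chords. -/

namespace Pool.Agent.Q252.UB

open Finset

section NC

/-- the number of chords inside an interval -/
def cnt (F : Finset (ℕ × ℕ)) (i j : ℕ) : ℕ := (F.filter fun e => i ≤ e.1 ∧ e.2 ≤ j).card

/-- the number of bichromatic steps -/
def st (col : ℕ → Bool) (i j : ℕ) : ℤ := ∑ k ∈ Ico i j, if col k = col (k + 1) then (0 : ℤ) else 1

/-- the bound -/
def bd (col : ℕ → Bool) (i j : ℕ) : ℤ :=
  2 * ((j : ℤ) - i) - st col i j - 2 + if col i = col j then 0 else 1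

variable {F : Finset (ℕ × ℕ)} {col : ℕ → Bool}

lemma st_add {i b j : ℕ} (h : i ≤ b) (h' : b ≤ j) : st col i j = st col i b + st col b j :=
  (Finset.sum_Ico_consecutive _ h h').symm

lemma st_one (i : ℕ) : st col i (i + 1) = if col i = col (i + 1) then (0 : ℤ) else 1 := by
  simp [st]

theorem nc_bound (hF : ∀ e ∈ F, e.1 + 2 ≤ e.2) (hc : ∀ e ∈ F, col e.1 ≠ col e.2)
    (hnc : ∀ e ∈ F, ∀ f ∈ F, ¬ (e.1 < f.1 ∧ f.1 < e.2 ∧ e.2 < f.2)) :
    ∀ n i : ℕ, 0 < n → 2 * (cnt F i (i + n) : ℤ) ≤ bd col i (i + n) := by
  intro n
  induction n using Nat.strong_induction_on with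
  | _ n ih =>
    intro i hn
    obtain ⟨j, hj⟩ : ∃ j, j = i + n := ⟨_, rfl⟩
    rw [← hj]
    have ih' : ∀ a b, a < b → b - a < n → 2 * (cnt F a b : ℤ) ≤ bd col a b := by
      intro a b hab hlt
      have := ih (b - a) hlt a (by omega)
      rwa [Nat.add_sub_cancel' hab.le] at this
    rcases Nat.lt_or_ge n 2 with h2 | h2
    · -- adjacent points
      have hj1 : j = i + 1 := by omega
      have h0 : cnt F i j = 0 := by
        rw [cnt, Finset.card_eq_zero, Finset.filter_eq_empty_iff]
        rintro e he ⟨h3, h4⟩
        have := hF e he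
        omega
      rw [h0, bd, hj1, st_one]
      push_cast
      split_ifs <;> omega
    -- the chords different from `(i, j)`
    have key : 2 * (((F.filter fun e => (i ≤ e.1 ∧ e.2 ≤ j) ∧ e ≠ (i, j)).card : ℕ) : ℤ) ≤
        bd col i j - 2 * (if col i = col j then 0 else 1) := by
      by_cases hex : ∃ b, (i, b) ∈ F ∧ b < j
      · obtain ⟨b, hb, hmax⟩ : ∃ b, ((i, b) ∈ F ∧ b < j) ∧ ∀ b', (i, b') ∈ F ∧ b' < j → b' ≤ b := by
          obtain ⟨b0, hb0⟩ := hex
          have hfin : {b | (i, b) ∈ F ∧ b < j}.Finite := (Set.finite_lt_nat j).subset fun b hb => hb.2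
          obtain ⟨b, hb, hm⟩ := hfin.exists_maximal ⟨b0, hb0⟩
          refine ⟨b, hb, fun b' hb' => ?_⟩
          by_contra hcon
          push Not at hcon
          have := hm hb' hcon.le
          omega
        have hib := hF _ hb.1
        simp only at hib
        have hcard : (F.filter fun e => (i ≤ e.1 ∧ e.2 ≤ j) ∧ e ≠ (i, j)).card ≤
            cnt F i b + cnt F b j := by
          refine le_trans (Finset.card_le_card ?_) (Finset.card_union_le _ _)
          intro e he
          rw [Finset.mem_filter] at he
          obtain ⟨he, ⟨h3, h4⟩, h5⟩ := he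
          rw [Finset.mem_union, Finset.mem_filter, Finset.mem_filter]
          rcases h3.eq_or_lt with h6 | h6
          · left
            refine ⟨he, h3, hmax e.2 ⟨?_, ?_⟩⟩
            · rw [h6]; exact he
            · refine lt_of_le_of_ne h4 fun h => h5 ?_
              ext
              · exact h6.symm
              · exact h
          · by_cases h7 : b ≤ e.1
            · right; exact ⟨he, h7, h4⟩
            · left
              refine ⟨he, h3, ?_⟩
              by_contra h8
              exact hnc _ hb.1 e he ⟨h6, by omega, by omega⟩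
        have h1 := ih' i b (by omega) (by omega)
        have h2 := ih' b j hb.2 (by omega)
        have h3 := st_add (col := col) (i := i) (b := b) (j := j) (by omega) hb.2.le
        have h4 := hc _ hb.1
        simp only at h4
        have hcard' : (((F.filter fun e => (i ≤ e.1 ∧ e.2 ≤ j) ∧ e ≠ (i, j)).card : ℕ) : ℤ) ≤
          cnt F i b + cnt F b j := by exact_mod_cast hcard
        rw [bd] at h1 h2 ⊢
        rw [if_neg h4] at h1
        by_cases h5 : col i = col j
        · have h6 : col b ≠ col j := fun h => h4 (h5.trans h.symm)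
          rw [if_neg h6] at h2
          rw [if_pos h5]
          linarith
        · have h6 : col b = col j := by
            rcases hi : col i <;> rcases hb' : col b <;> rcases hj' : col j <;> simp_all
          rw [if_pos h6] at h2
          rw [if_neg h5]
          linarith
      · push Not at hex
        have hcard : (F.filter fun e => (i ≤ e.1 ∧ e.2 ≤ j) ∧ e ≠ (i, j)).card ≤
            cnt F (i + 1) j := by
          refine Finset.card_le_card ?_
          intro e he
          rw [Finset.mem_filter] at he
          obtain ⟨he, ⟨h3, h4⟩, h5⟩ := he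
          rw [Finset.mem_filter]
          refine ⟨he, ?_, h4⟩
          rcases h3.eq_or_lt with h6 | h6
          · exfalso
            have h7 := hex e.2 (by rw [h6]; exact he)
            refine h5 ?_
            ext
            · exact h6.symm
            · exact le_antisymm h4 h7
          · exact h6
        have h1 := ih' (i + 1) j (by omega) (by omega)
        have h3 := st_add (col := col) (i := i) (b := i + 1) (j := j) (by omega) (by omega)
        rw [st_one] at h3
        have hcard' : (((F.filter fun e => (i ≤ e.1 ∧ e.2 ≤ j) ∧ e ≠ (i, j)).card : ℕ) : ℤ) ≤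
          cnt F (i + 1) j := by exact_mod_cast hcard
        rw [bd] at h1 ⊢
        push_cast at h1
        rcases hi : col i <;> rcases hb' : col (i + 1) <;> rcases hj' : col j <;>
          simp [hi, hb', hj'] at h1 h3 ⊢ <;> linarith
    have hcnt : cnt F i j ≤ (F.filter fun e => (i ≤ e.1 ∧ e.2 ≤ j) ∧ e ≠ (i, j)).card +
        (if (i, j) ∈ F then 1 else 0) := by
      by_cases hm : (i, j) ∈ F
      · rw [if_pos hm]
        refine le_trans (Finset.card_le_card (t := insert (i, j)
          (F.filter fun e => (i ≤ e.1 ∧ e.2 ≤ j) ∧ e ≠ (i, j))) ?_) (Finset.card_insert_le _ _)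
        intro e he
        rw [Finset.mem_filter] at he
        rw [Finset.mem_insert, Finset.mem_filter]
        by_cases h : e = (i, j)
        · left; exact h
        · right; exact ⟨he.1, he.2, h⟩
      · rw [if_neg hm, add_zero]
        refine Finset.card_le_card ?_
        intro e he
        rw [Finset.mem_filter] at he
        rw [Finset.mem_filter]
        exact ⟨he.1, he.2, fun h => hm (h ▸ he.1)⟩
    have hcnt' : (cnt F i j : ℤ) ≤
        (((F.filter fun e => (i ≤ e.1 ∧ e.2 ≤ j) ∧ e ≠ (i, j)).card : ℕ) : ℤ) +
        (if (i, j) ∈ F then 1 else 0) := by exact_mod_cast hcnt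
    by_cases hm : (i, j) ∈ F
    · have h4 := hc _ hm
      simp only at h4
      rw [if_neg h4] at key
      rw [if_pos hm] at hcnt'
      linarith
    · rw [if_neg hm] at hcnt'
      split_ifs at key <;> linarith

end NC

end Pool.Agent.Q252.UB
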