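import Pool.Agent.Q252.UB.NC

set_option autoImplicit false
set_option linter.unusedSectionVars false

/-! Unit bars: the structure of a strip of width one. -/

namespace Pool.Agent.Q252.UB

open Finset Topology Filter
open Classical in

/-- the bar `b` lies over the abscissa `x` -/
def Over {ι : Type*} (l : ι → ℝ) (b : ι) (x : ℝ) : Prop := l b ≤ x ∧ x ≤ l b + 1

/-- two bars joined by a vertical channel of positive width that meets no other bar -/
def Sees {ι : Type*} (l h : ι → ℝ) (a b : ι) : Prop :=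
  ∃ α β : ℝ, α < β ∧ ∀ x, α < x → x < β → Over l a x ∧ Over l b x ∧
    ∀ c, c ≠ a → c ≠ b → Over l c x → ¬ (min (h a) (h b) < h c ∧ h c < max (h a) (h b))

section

variable {ι : Type*} {l h : ι → ℝ}

/-- visibility at an abscissa -/
def See (l h : ι → ℝ) (x : ℝ) (a b : ι) : Prop :=
  Over l a x ∧ Over l b x ∧ ∀ c, Over l c x → ¬ (min (h a) (h b) < h c ∧ h c < max (h a) (h b))

lemma See.symm {x : ℝ} {a b : ι} (s : See l h x a b) : See l h x b a :=
  ⟨s.2.1, s.1, fun c hc => by rw [min_comm, max_comm]; exact s.2.2 c hc⟩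

lemma See.not_btw {x : ℝ} {a b c : ι} (s : See l h x a b) (hc : Over l c x) (h1 : h a < h c)
    (h2 : h c < h b) : False :=
  s.2.2 c hc ⟨lt_of_le_of_lt (min_le_left _ _) h1, lt_of_lt_of_le h2 (le_max_right _ _)⟩

lemma Sees.see {a b : ι} (s : Sees l h a b) : ∃ x : ℝ, (∀ n : ℤ, x ≠ n) ∧ See l h x a b := by
  obtain ⟨α, β, hlt, hs⟩ := s
  obtain ⟨x, hx, h1, h2⟩ := exists_irrational_btwn hlt
  obtain ⟨h3, h4, h5⟩ := hs x h1 h2
  refine ⟨x, fun n => hx.ne_int n, h3, h4, fun c hc => ?_⟩
  by_cases hca : c = a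
  · subst hca
    rintro ⟨h6, h7⟩
    rcases le_total (h c) (h b) with h8 | h8
    · rw [min_eq_left h8] at h6; exact lt_irrefl _ h6
    · rw [max_eq_left h8] at h7; exact lt_irrefl _ h7
  by_cases hcb : c = b
  · subst hcb
    rintro ⟨h6, h7⟩
    rcases le_total (h a) (h c) with h8 | h8
    · rw [max_eq_right h8] at h7; exact lt_irrefl _ h7
    · rw [min_eq_right h8] at h6; exact lt_irrefl _ h6
  exact h5 c hca hcb hc

/-- standing assumptions: closed unit bars, pairwise disjoint, ends not at integers -/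
structure Good (l h : ι → ℝ) : Prop where
  disj : ∀ a b, a ≠ b → h a = h b → 1 < |l a - l b|
  nint : ∀ a (n : ℤ), l a ≠ n

/-- the integer met by the bar -/
noncomputable def idx (l : ι → ℝ) (a : ι) : ℤ := ⌈l a⌉

variable (g : Good l h)
include g

lemma lt_idx (a : ι) : l a < idx l a := lt_of_le_of_ne (Int.le_ceil _) (g.nint a _)

lemma idx_lt (a : ι) : (idx l a : ℝ) < l a + 1 := Int.ceil_lt_add_one _

lemma Good.hne {x : ℝ} {a b : ι} (hab : a ≠ b) (ha : Over l a x) (hb : Over l b x) :
    h a ≠ h b := by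
  intro heq
  have h1 := g.disj a b hab heq
  have h2 : |l a - l b| ≤ 1 := by
    rw [abs_le]
    constructor <;> linarith [ha.1, ha.2, hb.1, hb.2]
  linarith

lemma over_idx (a : ι) : Over l a (idx l a) := ⟨(lt_idx g a).le, (idx_lt g a).le⟩

lemma Good.inj {a b : ι} (hi : idx l a = idx l b) (hh : h a = h b) : a = b := by
  by_contra hab
  have h1 := over_idx g a
  have h2 := over_idx g b
  rw [← hi] at h2
  exact g.hne hab h1 h2 hh

lemma idx_of_over {x : ℝ} {k : ℤ} (h1 : (k : ℝ) < x) (h2 : x < k + 1) {a : ι} (ha : Over l a x) :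
    idx l a = k ∨ idx l a = k + 1 := by
  have h3 := lt_idx g a
  have h4 := idx_lt g a
  have h5 : (idx l a : ℝ) < (k : ℝ) + 2 := by linarith [ha.1]
  have h6 : (k : ℝ) < idx l a + 1 := by linarith [ha.2]
  have h7 : idx l a < k + 2 := by exact_mod_cast h5
  have h8 : k < idx l a + 1 := by exact_mod_cast h6
  omega

lemma over_left {x : ℝ} {k : ℤ} {a : ι} (hk : idx l a = k) (h1 : (k : ℝ) < x) (h2 : x ≤ l a + 1) :
    Over l a x := by
  have := lt_idx g a
  rw [hk] at this
  exact ⟨by linarith, h2⟩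

lemma over_right {x : ℝ} {k : ℤ} {a : ι} (hk : idx l a = k + 1) (h1 : x < (k : ℝ) + 1)
    (h2 : l a ≤ x) : Over l a x := by
  have := idx_lt g a
  rw [hk] at this
  push_cast at this
  exact ⟨h2, by linarith⟩

variable [Fintype ι] (Y : ι → Prop)

open Classical in
/-- the number of the bars of `Y` met at the integer `k` above `b` -/
noncomputable def up (l h : ι → ℝ) (Y : ι → Prop) (k : ℤ) (b : ι) : ℕ :=
  (univ.filter fun c => (Y c ∧ idx l c = k) ∧ h b < h c).card

open Classical in
/-- the number of the bars of `Y` met at the integer `k` below `b` -/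
noncomputable def dn (l h : ι → ℝ) (Y : ι → Prop) (k : ℤ) (b : ι) : ℕ :=
  (univ.filter fun c => (Y c ∧ idx l c = k) ∧ h c < h b).card

open Classical in
/-- the number of the bars of `Y` met at the integer `k` -/
noncomputable def tot (l : ι → ℝ) (Y : ι → Prop) (k : ℤ) : ℕ :=
  (univ.filter fun c => Y c ∧ idx l c = k).card

open Classical in
/-- the position of a bar on the boundary of the strip between `k` and `k + 1` -/
noncomputable def pos (l h : ι → ℝ) (Y : ι → Prop) (k : ℤ) (b : ι) : ℕ :=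
  if idx l b = k then 2 * up l h Y k b + (if Y b then 1 else 0)
  else 2 * tot l Y k + 1 + 2 * dn l h Y (k + 1) b + (if Y b then 1 else 0)

omit g in
open Classical in
lemma pos_right {k : ℤ} {b : ι} (hb : idx l b = k + 1) : pos l h Y k b =
    2 * tot l Y k + 1 + 2 * dn l h Y (k + 1) b + (if Y b then 1 else 0) := by
  rw [pos, if_neg (by rw [hb]; omega)]

omit g in
open Classical in
lemma pos_left {k : ℤ} {b : ι} (hb : idx l b = k) : pos l h Y k b =
    2 * up l h Y k b + (if Y b then 1 else 0) := by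
  rw [pos, if_pos hb]

lemma up_le (k : ℤ) (b : ι) : up l h Y k b ≤ tot l Y k := by
  classical
  rw [up, tot]
  refine Finset.card_le_card fun c hc => ?_
  rw [Finset.mem_filter] at hc ⊢
  exact ⟨hc.1, hc.2.1⟩

lemma up_lt {k : ℤ} {b : ι} (hb : Y b) (hk : idx l b = k) : up l h Y k b < tot l Y k := by
  classical
  rw [up, tot]
  refine Finset.card_lt_card ?_
  rw [Finset.ssubset_iff_of_subset]
  · refine ⟨b, by simp [hb, hk], by simp⟩
  · intro c hc
    rw [Finset.mem_filter] at hc ⊢
    exact ⟨hc.1, hc.2.1⟩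

lemma dn_le (k : ℤ) (b : ι) : dn l h Y k b ≤ tot l Y k := by
  classical
  rw [dn, tot]
  refine Finset.card_le_card fun c hc => ?_
  rw [Finset.mem_filter] at hc ⊢
  exact ⟨hc.1, hc.2.1⟩

lemma dn_lt {k : ℤ} {b : ι} (hb : Y b) (hk : idx l b = k) : dn l h Y k b < tot l Y k := by
  classical
  rw [dn, tot]
  refine Finset.card_lt_card ?_
  rw [Finset.ssubset_iff_of_subset]
  · refine ⟨b, by simp [hb, hk], by simp⟩
  · intro c hc
    rw [Finset.mem_filter] at hc ⊢
    exact ⟨hc.1, hc.2.1⟩

lemma up_anti {k : ℤ} {a b : ι} (hab : h a ≤ h b) : up l h Y k b ≤ up l h Y k a := by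
  classical
  rw [up, up]
  refine Finset.card_le_card fun c hc => ?_
  rw [Finset.mem_filter] at hc ⊢
  exact ⟨hc.1, hc.2.1, hab.trans_lt hc.2.2⟩

lemma dn_mono {k : ℤ} {a b : ι} (hab : h a ≤ h b) : dn l h Y k a ≤ dn l h Y k b := by
  classical
  rw [dn, dn]
  refine Finset.card_le_card fun c hc => ?_
  rw [Finset.mem_filter] at hc ⊢
  exact ⟨hc.1, hc.2.1, hc.2.2.trans_le hab⟩

lemma up_anti' {k : ℤ} {a b : ι} (hab : h a < h b) (hb : Y b) (hk : idx l b = k) :
    up l h Y k b < up l h Y k a := by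
  classical
  rw [up, up]
  refine Finset.card_lt_card ?_
  rw [Finset.ssubset_iff_of_subset]
  · refine ⟨b, by simp [hb, hk, hab], by simp⟩
  · intro c hc
    rw [Finset.mem_filter] at hc ⊢
    exact ⟨hc.1, hc.2.1, hab.trans hc.2.2⟩

lemma dn_mono' {k : ℤ} {a b : ι} (hab : h a < h b) (ha : Y a) (hk : idx l a = k) :
    dn l h Y k a < dn l h Y k b := by
  classical
  rw [dn, dn]
  refine Finset.card_lt_card ?_
  rw [Finset.ssubset_iff_of_subset]
  · refine ⟨a, by simp [ha, hk, hab], by simp⟩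
  · intro c hc
    rw [Finset.mem_filter] at hc ⊢
    exact ⟨hc.1, hc.2.1, hc.2.2.trans hab⟩

lemma pos_left_le {k : ℤ} {a : ι} (ha : idx l a = k) : pos l h Y k a ≤ 2 * tot l Y k := by
  rw [pos_left Y ha]
  split_ifs with hY
  · have := up_lt g Y hY ha; omega
  · have := up_le g Y k a; omega

lemma lt_pos_right {k : ℤ} {a : ι} (ha : idx l a = k + 1) : 2 * tot l Y k < pos l h Y k a := by
  rw [pos_right Y ha]
  omega

lemma pos_right_le {k : ℤ} {a : ι} (ha : idx l a = k + 1) :
    pos l h Y k a ≤ 2 * tot l Y k + 2 * tot l Y (k + 1) + 1 := by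
  rw [pos_right Y ha]
  split_ifs with hY
  · have := dn_lt g Y hY ha; omega
  · have := dn_le g Y (k + 1) a; omega

lemma pos_left_anti {k : ℤ} {a b : ι} (ha : idx l a = k) (hb : idx l b = k) (hab : h a ≤ h b) :
    pos l h Y k b ≤ pos l h Y k a := by
  rcases hab.eq_or_lt with h1 | h1
  · rw [g.inj (ha.trans hb.symm) h1]
  rw [pos_left Y ha, pos_left Y hb]
  have h2 := up_anti g Y (k := k) hab
  split_ifs with h3 h4 h4
  · omega
  · have := up_anti' g Y h1 h3 hb; omega
  · omega
  · omega

lemma pos_left_anti' {k : ℤ} {a b : ι} (ha : idx l a = k) (hb : idx l b = k) (hab : h a < h b)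
    (hY : Y a ∨ Y b) : pos l h Y k b < pos l h Y k a := by
  rw [pos_left Y ha, pos_left Y hb]
  have h2 := up_anti g Y (k := k) hab.le
  split_ifs with h3 h4 h4
  · have := up_anti' g Y hab h3 hb; omega
  · have := up_anti' g Y hab h3 hb; omega
  · omega
  · tauto

lemma pos_right_mono {k : ℤ} {a b : ι} (ha : idx l a = k + 1) (hb : idx l b = k + 1)
    (hab : h a ≤ h b) : pos l h Y k a ≤ pos l h Y k b := by
  rcases hab.eq_or_lt with h1 | h1
  · rw [g.inj (ha.trans hb.symm) h1]
  rw [pos_right Y ha, pos_right Y hb]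
  have h2 := dn_mono g Y (k := k + 1) hab
  split_ifs with h3 h4 h4
  · omega
  · have := dn_mono' g Y h1 h3 ha; omega
  · omega
  · omega

lemma pos_right_mono' {k : ℤ} {a b : ι} (ha : idx l a = k + 1) (hb : idx l b = k + 1)
    (hab : h a < h b) (hY : Y a ∨ Y b) : pos l h Y k a < pos l h Y k b := by
  rw [pos_right Y ha, pos_right Y hb]
  have h2 := dn_mono g Y (k := k + 1) hab.le
  split_ifs with h3 h4 h4
  · have := dn_mono' g Y hab h3 ha; omega
  · have := dn_mono' g Y hab h3 ha; omega
  · omega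
  · tauto

/-- the visibilities of a strip do not cross -/
theorem no_cross {k : ℤ} {x x' : ℝ} (h1 : (k : ℝ) < x) (h2 : x < k + 1) (h1' : (k : ℝ) < x')
    (h2' : x' < k + 1) {p q p' q' : ι} (s : See l h x p q) (s' : See l h x' p' q')
    (c1 : pos l h Y k p < pos l h Y k p') (c2 : pos l h Y k p' < pos l h Y k q)
    (c3 : pos l h Y k q < pos l h Y k q') : False := by
  have hLL : ∀ a b, idx l a = k → idx l b = k → pos l h Y k a < pos l h Y k b → h b < h a := by
    intro a b ha hb hab
    by_contra hcon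
    push Not at hcon
    have := pos_left_anti g Y ha hb hcon
    omega
  have hRR : ∀ a b, idx l a = k + 1 → idx l b = k + 1 → pos l h Y k a < pos l h Y k b →
      h a < h b := by
    intro a b ha hb hab
    by_contra hcon
    push Not at hcon
    have := pos_right_mono g Y hb ha hcon
    omega
  have hpre : ∀ a b, pos l h Y k a < pos l h Y k b → idx l b = k →
      (idx l a = k ∨ idx l a = k + 1) → idx l a = k := by
    intro a b hab hb ha
    rcases ha with ha | ha
    · exact ha
    · have h3 := pos_left_le g Y hb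
      have h4 := lt_pos_right g Y ha
      omega
  have ip := idx_of_over g h1 h2 s.1
  have iq := idx_of_over g h1 h2 s.2.1
  have ip' := idx_of_over g h1' h2' s'.1
  have iq' := idx_of_over g h1' h2' s'.2.1
  have ovL : ∀ a, idx l a = k → Over l a x → x' ≤ x → Over l a x' := fun a ha ho hx =>
    over_left g ha h1' (hx.trans ho.2)
  have ovL' : ∀ a, idx l a = k → Over l a x' → x ≤ x' → Over l a x := fun a ha ho hx =>
    over_left g ha h1 (hx.trans ho.2)
  have ovR : ∀ a, idx l a = k + 1 → Over l a x → x ≤ x' → Over l a x' := fun a ha ho hx =>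
    over_right g ha h2' (ho.1.trans hx)
  have ovR' : ∀ a, idx l a = k + 1 → Over l a x' → x' ≤ x → Over l a x := fun a ha ho hx =>
    over_right g ha h2 (ho.1.trans hx)
  rcases iq' with iq' | iq'
  · -- four left bars
    have iq := hpre _ _ c3 iq' iq
    have ip' := hpre _ _ c2 iq ip'
    have ip := hpre _ _ c1 ip' ip
    have e1 := hLL _ _ ip ip' c1
    have e2 := hLL _ _ ip' iq c2
    have e3 := hLL _ _ iq iq' c3
    rcases le_total x x' with hx | hx
    · exact s.symm.not_btw (ovL' _ ip' s'.1 hx) e2 e1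
    · exact s'.symm.not_btw (ovL _ iq s.2.1 hx) e3 e2
  rcases iq with iq | iq
  · -- three left bars
    have ip' := hpre _ _ c2 iq ip'
    have ip := hpre _ _ c1 ip' ip
    have e1 := hLL _ _ ip ip' c1
    have e2 := hLL _ _ ip' iq c2
    rcases le_total x x' with hx | hx
    · exact s.symm.not_btw (ovL' _ ip' s'.1 hx) e2 e1
    have o1 := ovR' _ iq' s'.2.1 hx
    have o2 := ovL _ ip s.1 hx
    have o3 := ovL _ iq s.2.1 hx
    have n1 : h q' ≠ h p := g.hne (by rintro rfl; omega) o1 s.1
    have n2 : h q' ≠ h q := g.hne (by rintro rfl; omega) o1 s.2.1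
    rcases lt_or_gt_of_ne n1 with d1 | d1
    · rcases lt_or_gt_of_ne n2 with d2 | d2
      · exact s'.symm.not_btw o3 d2 e2
      · exact s.symm.not_btw o1 d2 d1
    · exact s'.not_btw o2 e1 d1
  rcases ip' with ip' | ip'
  · -- two left bars
    have ip := hpre _ _ c1 ip' ip
    have e1 := hLL _ _ ip ip' c1
    have e2 := hRR _ _ iq iq' c3
    rcases le_total x x' with hx | hx
    · have o1 := ovL' _ ip' s'.1 hx
      have o2 := ovR _ iq s.2.1 hx
      have n1 : h p' ≠ h q := g.hne (by rintro rfl; omega) s'.1 o2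
      rcases lt_or_gt_of_ne n1 with d1 | d1
      · exact s'.not_btw o2 d1 e2
      · exact s.symm.not_btw o1 d1 e1
    · have o1 := ovL _ ip s.1 hx
      have o2 := ovR' _ iq' s'.2.1 hx
      have n1 : h p ≠ h q' := g.hne (by rintro rfl; omega) s.1 o2
      rcases lt_or_gt_of_ne n1 with d1 | d1
      · exact s'.not_btw o1 e1 d1
      · exact s.symm.not_btw o2 e2 d1
  rcases ip with ip | ip
  · -- one left bar
    have e1 := hRR _ _ ip' iq c2
    have e2 := hRR _ _ iq iq' c3
    rcases le_total x x' with hx | hx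
    · exact s'.not_btw (ovR _ iq s.2.1 hx) e1 e2
    have o1 := ovL _ ip s.1 hx
    have o2 := ovR' _ ip' s'.1 hx
    have o3 := ovR' _ iq' s'.2.1 hx
    have n1 : h p ≠ h q' := g.hne (by rintro rfl; omega) s.1 o3
    have n2 : h p ≠ h p' := g.hne (by rintro rfl; omega) s.1 o2
    rcases lt_or_gt_of_ne n1 with d1 | d1
    · rcases lt_or_gt_of_ne n2 with d2 | d2
      · exact s.not_btw o2 d2 e1
      · exact s'.not_btw o1 d2 d1
    · exact s.symm.not_btw o3 e2 d1
  · -- no left bar
    have e1 := hRR _ _ ip ip' c1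
    have e2 := hRR _ _ ip' iq c2
    have e3 := hRR _ _ iq iq' c3
    rcases le_total x x' with hx | hx
    · exact s'.not_btw (ovR _ iq s.2.1 hx) e2 e3
    · exact s.not_btw (ovR' _ ip' s'.1 hx) e1 e2

end

end Pool.Agent.Q252.UB
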